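import Mathlib
import Pool.Agent.H56.KKEnd

/-!
# MP_b5e666_co (Kahn–Kalai): a certificate for the splitting into `n` classes

If some edge `A` and edges `C x` (`x ∈ A`) with `x ∉ C x` satisfy `∑ (|C x| - 1) < n`, then the
intersecting family splits into `n` 2-intersecting classes. For a projective plane of order `q`
the sum is `(q + 1) q = n - 1`, so the condition is sharp there.
-/

set_option autoImplicit false

namespace Pool.Agent.Results.MP_b5e666_co.Certificate

open Finset Pool.Agent.H56.KK

theorem result :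
    ∀ n : ℕ, 1 ≤ n → ∀ H : Finset (Finset (Fin n)),
      (H : Set (Finset (Fin n))).Intersecting →
      (∃ A ∈ H, ∃ C : Fin n → Finset (Fin n),
        (∀ x ∈ A, C x ∈ H ∧ x ∉ C x) ∧ ∑ x ∈ A, ((C x).card - 1) < n) →
      ∃ f : Finset (Fin n) → Fin n,
        ∀ F ∈ H, ∀ F' ∈ H, F ≠ F' → f F = f F' → 2 ≤ (F ∩ F').card := by
  rintro n hn H hH ⟨A, hA, C, hC, hs⟩
  exact ofCov hn ((cert (toInt hH) hA C hC).mono (fun A hA => hA) (by omega))

end Pool.Agent.Results.MP_b5e666_co.Certificate
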