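import Mathlib
import Pool.Agent.H56.KKEnd

/-!
# MP_b5e666_co (Kahn–Kalai): families with an edge of size at most three
-/

set_option autoImplicit false

namespace Pool.Agent.Results.MP_b5e666_co.EdgeThree

open Finset Pool.Agent.H56.KK

theorem result :
    ∀ n : ℕ, 1 ≤ n → ∀ H : Finset (Finset (Fin n)),
      (H : Set (Finset (Fin n))).Intersecting →
      (∃ A ∈ H, A.card ≤ 3) →
      ∃ f : Finset (Fin n) → Fin n,
        ∀ F ∈ H, ∀ F' ∈ H, F ≠ F' → f F = f F' → 2 ≤ (F ∩ F').card :=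
  fun _ hn _ hH hA => ofCov hn (small hn (toInt hH) hA)

end Pool.Agent.Results.MP_b5e666_co.EdgeThree
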