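import Mathlib
import Pool.Agent.H56.KKEnd

/-!
# MP_b5e666_co (Kahn–Kalai): `0.63 n^{4/3} + n + 1` classes always suffice
-/

set_option autoImplicit false

namespace Pool.Agent.Results.MP_b5e666_co.FourThirds

open Finset Pool.Agent.H56.KK

theorem result :
    ∀ n : ℕ, 1 ≤ n → ∀ H : Finset (Finset (Fin n)),
      (H : Set (Finset (Fin n))).Intersecting →
      ∃ k : ℕ, (k : ℝ) ≤ ((n : ℝ) ^ 2 / 2) ^ ((2 : ℝ) / 3) + n + 1 ∧
        ∃ f : Finset (Fin n) → Fin k,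
          ∀ F ∈ H, ∀ F' ∈ H, F ≠ F' → f F = f F' → 2 ≤ (F ∩ F').card := by
  intro n hn H hH
  have hI := toInt hH
  have hn' : (1 : ℝ) ≤ n := by exact_mod_cast hn
  set u : ℝ := ((n : ℝ) ^ 2 / 2) ^ ((1 : ℝ) / 3) with hu
  have hpos : (0 : ℝ) < (n : ℝ) ^ 2 / 2 := by positivity
  have hu0 : 0 < u := Real.rpow_pos_of_pos hpos _
  have hu3 : u ^ 3 = (n : ℝ) ^ 2 / 2 := by
    rw [hu, ← Real.rpow_natCast, ← Real.rpow_mul hpos.le]
    norm_num
  have hu2 : u ^ 2 = ((n : ℝ) ^ 2 / 2) ^ ((2 : ℝ) / 3) := by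
    rw [hu, ← Real.rpow_natCast, ← Real.rpow_mul hpos.le]
    norm_num
  have hun : u ≤ n := by
    by_contra hcon
    push Not at hcon
    have : (n : ℝ) ^ 3 < u ^ 3 := by
      exact pow_lt_pow_left₀ hcon (by positivity) (by norm_num)
    rw [hu3] at this
    nlinarith [sq_nonneg (n : ℝ)]
  set t : ℕ := ⌈u⌉₊ with ht
  have ht1 : 1 ≤ t := Nat.one_le_iff_ne_zero.2 (Nat.pos_iff_ne_zero.1 (Nat.ceil_pos.2 hu0))
  have htu : u ≤ t := Nat.le_ceil u
  have htu' : (t : ℝ) < u + 1 := Nat.ceil_lt_add_one hu0.le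
  have hcov := general hn hI t ht1
  refine ⟨max (t * (t - 1) + 1) (n + n * (n - 1) / (2 * t)), ?_,
    ofCov (le_trans (by omega) (le_max_left _ _)) hcov⟩
  rw [← hu2, Nat.cast_max, max_le_iff]
  constructor
  · rw [Nat.cast_add, Nat.cast_mul, Nat.cast_sub ht1, Nat.cast_one]
    nlinarith
  · have h1 : ((n * (n - 1) / (2 * t) : ℕ) : ℝ) ≤ u ^ 2 := by
      refine le_trans Nat.cast_div_le ?_
      rw [div_le_iff₀ (by positivity)]
      rw [Nat.cast_mul, Nat.cast_sub hn, Nat.cast_mul, Nat.cast_one]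
      have h3 : u ^ 2 * u ≤ u ^ 2 * (t : ℝ) := by
        exact mul_le_mul_of_nonneg_left htu (by positivity)
      have h4 : u ^ 2 * u = (n : ℝ) ^ 2 / 2 := by rw [← hu3]; ring
      push_cast
      nlinarith
    rw [Nat.cast_add]
    linarith

end Pool.Agent.Results.MP_b5e666_co.FourThirds
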