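import Mathlib
import Pool.Agent.H56.KKEnd

/-!
# MP_b5e666_co (Kahn–Kalai): the statement for at most nine points

An edge with at most three points is handled by `small`; otherwise all edges have at least four
points, hence more than a third of the points, and disjoint triangles do the job.
-/

set_option autoImplicit false

namespace Pool.Agent.Results.MP_b5e666_co.NinePoints

open Finset Pool.Agent.H56.KK

theorem result :
    ∀ n : ℕ, 1 ≤ n → n ≤ 9 → ∀ H : Finset (Finset (Fin n)),
      (H : Set (Finset (Fin n))).Intersecting →
      ∃ f : Finset (Fin n) → Fin n,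
        ∀ F ∈ H, ∀ F' ∈ H, F ≠ F' → f F = f F' → 2 ≤ (F ∩ F').card := by
  intro n hn h9 H hH
  have hI := toInt hH
  apply ofCov hn
  by_cases h3 : ∃ A ∈ H, A.card ≤ 3
  · exact small hn hI h3
  · refine large hn fun A hA => ?_
    push Not at h3
    have := h3 A hA
    omega

end Pool.Agent.Results.MP_b5e666_co.NinePoints
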